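import Pool.Agent.W434.NUM.Stm

/-!
# Project NUM: markers
-/

set_option autoImplicit false

namespace Pool.Agent.W797.NUM

open Pool.Agent.W434.NUM

section

variable {n : ℕ}

theorem hc_succ (j : Fin n) (h : ℕ → Fin n) (m : ℕ) : hc j h (m + 1) = h m := rfl

theorem shf_hc (j : Fin n) (h : ℕ → Fin n) (s : ℕ) : shf (hc j h) (s + 1) = shf h s := by
  funext t
  unfold shf
  rw [← add_assoc, hc_succ]

theorem exc_hc (l K : ℕ) (j : Fin n) (h : ℕ → Fin n) (i : ℕ) :
    Exc l K (hc j h) (i + 1) ↔ Exc l K h i := by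
  unfold Exc
  rw [shf_hc, hc_succ]

theorem col_hc (l : ℕ) (j : Fin n) (h : ℕ → Fin n) (i : ℕ) :
    col l (hc j h) (i + 1) = col l h i := by
  unfold col
  refine Finset.sum_congr rfl fun t _ => ?_
  have : i + 1 + t = (i + t) + 1 := by omega
  rw [this, hc_succ]

theorem mk_hc (l K : ℕ) (j : Fin n) (h : ℕ → Fin n) (i : ℕ) (hK : K ≤ i + 1) :
    Mk l K (hc j h) (i + 1) ↔ Mk l K h i := by
  unfold Mk
  rw [exc_hc, col_hc]
  refine or_congr Iff.rfl (and_congr ?_ ?_)
  · constructor
    · intro H s h1 h2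
      have := H (s + 1) (by omega) (by omega)
      rwa [exc_hc] at this
    · intro H s h1 h2
      obtain _ | s := s
      · omega
      · rw [exc_hc]
        exact H s (by omega) (by omega)
  · constructor
    · intro H s h0 h1 h2
      have := H (s + 1) (by omega) (by omega) (by omega)
      rwa [col_hc] at this
    · intro H s h0 h1 h2
      obtain _ | s := s
      · omega
      · rw [col_hc]
        exact H s (by omega) (by omega) (by omega)

/-- Claim P -/
theorem claimP (K : ℕ) (h : ℕ → Fin n) (i : ℕ) (hi : ¬ Exc (2 * K) K h i) (p : ℕ) (hp : 1 ≤ p)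
    (hpK : p < K) : ¬ ∀ t, t + p ≤ 2 * K → h (i + t) = h (i + t + p) := by
  intro hper
  apply hi
  have hP : Per (2 * K) p (shf h (i + 1)) := by
    intro t ht
    have := hper (t + 1) (by omega)
    unfold shf
    have e1 : t + (i + 1) = i + (t + 1) := by omega
    have e2 : t + p + (i + 1) = i + (t + 1) + p := by omega
    rw [e1, e2, this]
  have H : ∃ p, 1 ≤ p ∧ p < K ∧ Per (2 * K) p (shf h (i + 1)) := ⟨p, hp, hpK, hP⟩
  unfold Exc ex
  rw [dif_pos H]
  classical
  set p0 := Nat.find H with hp0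
  have hs : 1 ≤ p0 ∧ p0 < K ∧ Per (2 * K) p0 (shf h (i + 1)) := Nat.find_spec H
  obtain ⟨a1, a2, a3⟩ := hs
  have b1 := hP (p0 - 1) (by omega)
  have b2 := a3 (p - 1) (by omega)
  have b3 := hper 0 (by omega)
  have e1 : p0 - 1 + p = p - 1 + p0 := by omega
  have e2 : h i = shf h (i + 1) (p - 1) := by
    unfold shf
    have e3 : p - 1 + (i + 1) = i + 0 + p := by omega
    rw [e3, ← b3]
    rfl
  rw [e2, b2, ← e1, ← b1]

theorem digit_lt (l : ℕ) (a : ℕ → ℕ) (ha : ∀ t, a t < n) :
    ∑ t ∈ Finset.range l, a t * n ^ t < n ^ l := by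
  induction l with
  | zero => simp
  | succ l ih =>
    rw [Finset.sum_range_succ, pow_succ]
    have : a l * n ^ l + n ^ l ≤ n ^ l * n := by
      have h1 : a l + 1 ≤ n := ha l
      calc a l * n ^ l + n ^ l = (a l + 1) * n ^ l := by ring
        _ ≤ n * n ^ l := Nat.mul_le_mul_right _ h1
        _ = n ^ l * n := by ring
    omega

theorem digit_eq (l : ℕ) (a b : ℕ → ℕ) (ha : ∀ t, a t < n) (hb : ∀ t, b t < n)
    (h : ∑ t ∈ Finset.range l, a t * n ^ t = ∑ t ∈ Finset.range l, b t * n ^ t) :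
    ∀ t < l, a t = b t := by
  induction l with
  | zero => intro t ht; omega
  | succ l ih =>
    rw [Finset.sum_range_succ, Finset.sum_range_succ] at h
    have h1 := digit_lt l a ha
    have h2 := digit_lt l b hb
    have hpos : 0 < n ^ l := by omega
    have e1 : (∑ t ∈ Finset.range l, a t * n ^ t + a l * n ^ l) / n ^ l = a l := by
      rw [Nat.add_mul_div_right _ _ hpos, Nat.div_eq_of_lt h1, zero_add]
    have e2 : (∑ t ∈ Finset.range l, b t * n ^ t + b l * n ^ l) / n ^ l = b l := by
      rw [Nat.add_mul_div_right _ _ hpos, Nat.div_eq_of_lt h2, zero_add]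
    have e3 : a l = b l := by rw [← e1, ← e2, h]
    rw [e3] at h
    have h3 := ih (Nat.add_right_cancel h)
    intro t ht
    rcases Nat.lt_succ_iff_lt_or_eq.1 ht with h4 | h4
    · exact h3 t h4
    · rw [h4]
      exact e3

theorem col_lt (l : ℕ) (h : ℕ → Fin n) (i : ℕ) : col l h i < n ^ l :=
  digit_lt l (fun t => (h (i + t)).val) (fun t => (h (i + t)).isLt)

/-- Lemma C -/
theorem lemC (K : ℕ) (h : ℕ → Fin n) (i i' : ℕ) (h1 : i < i') (h2 : i' < i + K)
    (hi : ¬ Exc (2 * K) K h i) : col (2 * K) h i ≠ col (2 * K) h i' := by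
  intro hc
  have hd := digit_eq (n := n) (2 * K) (fun t => (h (i + t)).val) (fun t => (h (i' + t)).val)
    (fun t => (h (i + t)).isLt) (fun t => (h (i' + t)).isLt) hc
  refine claimP K h i hi (i' - i) (by omega) (by omega) ?_
  intro t ht
  have := hd t (by omega)
  have e : i + t + (i' - i) = i' + t := by omega
  rw [e]
  exact Fin.ext this

theorem descend (K : ℕ) (h : ℕ → Fin n) (i D : ℕ)
    (hne : ∀ s, i ≤ s → s ≤ i + D → ¬ Exc (2 * K) K h s) (c : ℕ) :
    ∀ x, col (2 * K) h x ≤ c → i + (c + 1) * K ≤ x → x + (c + 1) * K ≤ i + D →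
      ∃ i', i ≤ i' ∧ i' ≤ i + D ∧ Mk (2 * K) K h i' := by
  induction c with
  | zero =>
    intro x hx h1 h2
    refine ⟨x, by omega, by omega, Or.inr ⟨?_, ?_⟩⟩
    · intro s hs1 hs2
      exact hne s (by omega) (by omega)
    · intro s hs0 hs1 hs2
      have hne' : col (2 * K) h x ≠ col (2 * K) h s := by
        rcases Nat.lt_or_gt_of_ne hs0 with h3 | h3
        · exact (lemC K h s x h3 hs2 (hne s (by omega) (by omega))).symm
        · exact lemC K h x s h3 hs1 (hne x (by omega) (by omega))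
      omega
  | succ c ih =>
    intro x hx h1 h2
    have e1 : (c + 1 + 1) * K = (c + 1) * K + K := by ring
    by_cases hm : Mk (2 * K) K h x
    · exact ⟨x, by omega, by omega, hm⟩
    · unfold Mk at hm
      push Not at hm
      obtain ⟨-, hm⟩ := hm
      obtain ⟨s, hs0, hs1, hs2, hs3⟩ := hm fun s hs1 hs2 => hne s (by omega) (by omega)
      have hne' : col (2 * K) h x ≠ col (2 * K) h s := by
        rcases Nat.lt_or_gt_of_ne hs0 with h3 | h3
        · exact (lemC K h s x h3 hs2 (hne s (by omega) (by omega))).symm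
        · exact lemC K h x s h3 hs1 (hne x (by omega) (by omega))
      exact ih s (by omega) (by omega) (by omega)

end

theorem mk : S_mk := by
  intro n K hn hK
  refine ⟨2 * (n ^ (2 * K) + 1) * K, fun h => ⟨?_, ?_, ?_⟩⟩
  · intro j i hi
    exact mk_hc _ _ j h i hi
  · intro i i' hlt hm hm' hne
    by_contra hcon
    push Not at hcon
    rcases hm' with hm' | ⟨a1, a2⟩
    · exact hne hm'
    · have b1 := a1 i hcon (by omega)
      have b2 := a2 i (by omega) hcon (by omega)
      rcases hm with hm | ⟨a3, a4⟩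
      · exact b1 hm
      · have b3 := a4 i' (by omega) (by omega) hcon
        omega
  · intro i hne
    have e : 2 * (n ^ (2 * K) + 1) * K = (n ^ (2 * K) + 1) * K + (n ^ (2 * K) + 1) * K := by ring
    refine descend K h i _ hne (n ^ (2 * K)) (i + (n ^ (2 * K) + 1) * K) (col_lt _ _ _).le
      le_rfl (by omega)

end Pool.Agent.W797.NUM
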